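import Pool.Agent.W543.MO.Parts

/-!
# Project MO: finiteness of the Hom groups passes to Mat_ and to the Karoubi envelope
-/

set_option autoImplicit false

open CategoryTheory

namespace Pool.Agent.W509.MO

open Pool.Agent.W543.MO

theorem fin_of_inj {A B : Type*} [AddCommGroup A] [AddCommGroup B] [Module ℚ B]
    [Module.Finite ℚ B] (f : A →+ B) (hf : Function.Injective f)
    (h : ∀ (q : ℚ) (a : A), ∃ a', f a' = q • f a) :
    ∃ _ : Module ℚ A, Module.Finite ℚ A := by
  choose s hs using h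
  let i1 : SMul ℚ A := ⟨s⟩
  let i2 : Module ℚ A := Function.Injective.module ℚ f hf hs
  refine ⟨i2, ?_⟩
  exact Module.Finite.of_injective
    ({ toFun := f, map_add' := f.map_add, map_smul' := hs } : A →ₗ[ℚ] B) hf

theorem t_FINMAT : FINMAT_stmt := by
  intro 𝒟 _ _ h M N
  choose inst fin using h
  let i1 : ∀ (i : M.ι) (j : N.ι), Module ℚ (M.X i ⟶ N.X j) := fun i j => inst _ _
  have i2 : ∀ (i : M.ι) (j : N.ι), Module.Finite ℚ (M.X i ⟶ N.X j) := fun i j => fin _ _
  let f : (M ⟶ N) →+ (∀ (i : M.ι) (j : N.ι), M.X i ⟶ N.X j) :=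
    { toFun := fun f i j => f i j, map_zero' := rfl, map_add' := fun f g => rfl }
  refine fin_of_inj f ?_ ?_
  · intro a b hab
    exact hab
  · intro q a
    exact ⟨fun i j => q • a i j, rfl⟩

theorem t_FINKAR : FINKAR_stmt := by
  intro 𝒟 _ _ h P Q
  obtain ⟨inst, fin⟩ := h P.X Q.X
  refine fin_of_inj (Idempotents.Karoubi.inclusionHom P Q) ?_ ?_
  · intro a b hab
    exact Idempotents.Karoubi.Hom.ext hab
  · intro q a
    let c : (P.X ⟶ Q.X) →+ (P.X ⟶ Q.X) :=
      { toFun := fun g => P.p ≫ g ≫ Q.p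
        map_zero' := by simp
        map_add' := by intro x y; simp }
    have h1 : c a.f = a.f := a.comm
    have h2 : c (q • a.f) = q • a.f := by
      rw [map_rat_smul c q a.f, h1]
    exact ⟨⟨q • a.f, h2⟩, rfl⟩

end Pool.Agent.W509.MO
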